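import Pool.Agent.H79.RV.Stm
import Pool.Agent.H79.RT.Basic

/-!
# MP_a7284e_an, project RV: the count theorem (row W8)
-/

set_option autoImplicit false

namespace Pool.Agent.H54.RV2

open Finset Classical
open Pool.Agent.H79.RT Pool.Agent.H79.RU Pool.Agent.H79.RV

variable {n m : ℕ}

theorem ind_nonneg (p : Prop) : 0 ≤ ind p := by
  unfold ind; split_ifs <;> norm_num

theorem ind_le_one (p : Prop) : ind p ≤ 1 := by
  unfold ind; split_ifs <;> norm_num

theorem ind_false {p : Prop} (h : ¬p) : ind p = 0 := by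
  unfold ind; rw [if_neg h]

theorem ind_true {p : Prop} (h : p) : ind p = 1 := by
  unfold ind; rw [if_pos h]

theorem abs_sg_le (i : ℕ) (x : Q n) : |sg i x| ≤ 1 := by
  unfold sg
  split_ifs <;> simp

theorem mix_congr {α : Type*} {i : ℕ} {F : Q n → α} (h : Inv i F) (x u : Q n) :
    F (mix i x u) = F x := by
  refine h.congr fun l hl => ?_
  unfold mix
  rw [if_pos hl]

theorem pr_mix {α : Type*} {i j : ℕ} {b : Q n → Q m → α} (h : Pr i j b) (x u : Q n) (y v : Q m) :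
    b (mix i x u) (mix j y v) = b x y := by
  have h1 : b (mix i x u) (mix j y v) = b x (mix j y v) := mix_congr (h.1 (mix j y v)) x u
  rw [h1]
  exact mix_congr (h.2 x) y v

theorem cnt_nonneg (c : ℕ → ℕ → Q n → Q m → Prop) : 0 ≤ cnt c :=
  sum_nonneg fun _ _ => sum_nonneg fun _ _ => av2_nonneg fun _ _ => ind_nonneg _

theorem mm_nonneg (S : ℕ → ℕ → Q n → Q m → Prop) (i j : ℕ) (x : Q n) (y : Q m) :
    0 ≤ mm S i j x y := av2_nonneg fun _ _ => ind_nonneg _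

theorem mm_le_one (S : ℕ → ℕ → Q n → Q m → Prop) (i j : ℕ) (x : Q n) (y : Q m) :
    mm S i j x y ≤ 1 := by
  unfold mm c2
  refine (av2_mono fun u v => ind_le_one _).trans ?_
  rw [av2_const]

/-- the last charged site -/
def St (τ : ℕ → ℕ → ℕ) (T : Q n → Q m → ℕ) (c : ℕ → ℕ → Q n → Q m → Prop) (i j : ℕ) (x : Q n)
    (y : Q m) : Prop :=
  (i < n ∧ j < m) ∧ (c i j x y ∧ τ i j ≤ T x y) ∧
    ∀ a < n, ∀ e < m, c a e x y → τ a e ≤ T x y → τ a e ≤ τ i j

theorem st_sng {τ : ℕ → ℕ → ℕ} (hτ : Clk τ) (T : Q n → Q m → ℕ)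
    (c : ℕ → ℕ → Q n → Q m → Prop) : Sng (St τ T c) := by
  refine ⟨fun i j x y h => h.1, fun i j i' j' x y h h' => hτ.inj _ _ _ _ (le_antisymm ?_ ?_)⟩
  · exact h'.2.2 i h.1.1 j h.1.2 h.2.1.1 h.2.1.2
  · exact h.2.2 i' h'.1.1 j' h'.1.2 h'.2.1.1 h'.2.1.2

theorem st_ex {τ : ℕ → ℕ → ℕ} (T : Q n → Q m → ℕ) (c : ℕ → ℕ → Q n → Q m → Prop)
    {i j : ℕ} {x : Q n} {y : Q m} (hi : i < n) (hj : j < m) (hc : c i j x y)
    (hT : τ i j ≤ T x y) : ∃ a e, St τ T c a e x y ∧ τ i j ≤ τ a e := by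
  have hne : ((range n ×ˢ range m).filter fun p =>
      c p.1 p.2 x y ∧ τ p.1 p.2 ≤ T x y).Nonempty :=
    ⟨(i, j), mem_filter.2 ⟨mem_product.2 ⟨mem_range.2 hi, mem_range.2 hj⟩, hc, hT⟩⟩
  obtain ⟨p, hp, hmax⟩ := exists_max_image _ (fun p : ℕ × ℕ => τ p.1 p.2) hne
  have h1 := mem_filter.1 hp
  have h2 := mem_product.1 h1.1
  refine ⟨p.1, p.2, ⟨⟨mem_range.1 h2.1, mem_range.1 h2.2⟩, h1.2, fun a ha e he h3 h4 => ?_⟩, ?_⟩
  · exact hmax (a, e) (mem_filter.2 ⟨mem_product.2 ⟨mem_range.2 ha, mem_range.2 he⟩, h3, h4⟩)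
  · exact hmax (i, j) (mem_filter.2 ⟨mem_product.2 ⟨mem_range.2 hi, mem_range.2 hj⟩, hc, hT⟩)

theorem st_split {τ : ℕ → ℕ → ℕ} (hτ : Clk τ) (T : Q n → Q m → ℕ)
    (c : ℕ → ℕ → Q n → Q m → Prop) {i j : ℕ} {x : Q n} {y : Q m} (hi : i < n) (hj : j < m)
    (hc : c i j x y) :
    ind (τ i j ≤ T x y) = ind (∃ a e, St τ T c a e x y ∧ τ i j < τ a e) +
      ind (St τ T c i j x y) := by
  by_cases hT : τ i j ≤ T x y
  · rw [ind_true hT]
    obtain ⟨a, e, h1, h2⟩ := st_ex T c hi hj hc hT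
    rcases Nat.lt_or_ge (τ i j) (τ a e) with h3 | h3
    · rw [ind_true ⟨a, e, h1, h3⟩, ind_false, add_zero]
      intro h4
      obtain ⟨h5, h6⟩ := (st_sng hτ T c).2 _ _ _ _ _ _ h1 h4
      rw [h5, h6] at h3
      exact absurd h3 (lt_irrefl _)
    · obtain ⟨h5, h6⟩ := hτ.inj _ _ _ _ (le_antisymm h2 h3)
      have h7 : St τ T c i j x y := by rw [h5, h6]; exact h1
      rw [ind_true h7, ind_false, zero_add]
      rintro ⟨a', e', h8, h9⟩
      obtain ⟨h10, h11⟩ := (st_sng hτ T c).2 _ _ _ _ _ _ h8 h7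
      rw [h10, h11] at h9
      exact absurd h9 (lt_irrefl _)
  · rw [ind_false hT, ind_false, ind_false, add_zero]
    · intro h
      exact hT h.2.1.2
    · rintro ⟨a, e, h1, h2⟩
      exact hT (h2.le.trans h1.2.1.2)

/-- the Haar average of the sites before the last charged site -/
noncomputable def dS (τ : ℕ → ℕ → ℕ) (T : Q n → Q m → ℕ) (c : ℕ → ℕ → Q n → Q m → Prop)
    (i j : ℕ) (x : Q n) (y : Q m) : ℝ :=
  c2 i j (fun x y => sg i x * sg j y * ind (∃ a e, St τ T c a e x y ∧ τ i j < τ a e)) x y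

theorem dd_sub_le (h0 : SC2) {τ : ℕ → ℕ → ℕ} (hτ : Clk τ) (T : Q n → Q m → ℕ)
    {c : ℕ → ℕ → Q n → Q m → Prop} (hc : ∀ i j, Pr i j (c i j)) {i j : ℕ} {x : Q n} {y : Q m}
    (hi : i < n) (hj : j < m) (hcx : c i j x y) :
    |dd τ T i j x y - dS τ T c i j x y| ≤ mm (St τ T c) i j x y := by
  have e : dd τ T i j x y = dS τ T c i j x y +
      c2 i j (fun x y => sg i x * sg j y * ind (St τ T c i j x y)) x y := by
    unfold dd dS c2
    rw [← av2_add]
    congr 1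
    funext u v
    have h1 : c i j (mix i x u) (mix j y v) := by
      rw [pr_mix (hc i j)]
      exact hcx
    beta_reduce
    rw [st_split hτ T c hi hj h1]
    ring
  rw [e, add_sub_cancel_left]
  refine ((h0 n m i j).2.2.2.2 _ x y).trans ((h0 n m i j).2.2.1 _ _ (fun x y => ?_) x y)
  rw [abs_mul, abs_mul, abs_of_nonneg (ind_nonneg _)]
  have h1 : |sg i x| * |sg j y| ≤ 1 := by
    calc |sg i x| * |sg j y| ≤ 1 * 1 :=
          mul_le_mul (abs_sg_le i x) (abs_sg_le j y) (abs_nonneg _) zero_le_one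
      _ = 1 := one_mul 1
  calc |sg i x| * |sg j y| * ind (St τ T c i j x y) ≤ 1 * ind (St τ T c i j x y) :=
        mul_le_mul_of_nonneg_right h1 (ind_nonneg _)
    _ = ind (St τ T c i j x y) := one_mul _

theorem cnt_st_le {τ : ℕ → ℕ → ℕ} (hτ : Clk τ) (T : Q n → Q m → ℕ)
    (c : ℕ → ℕ → Q n → Q m → Prop) : cnt (St τ T c) ≤ sup0 T := by
  have e : cnt (St τ T c) = av2 fun x y => ∑ i ∈ range n, ∑ j ∈ range m,
      ind (St τ T c i j x y) := by
    unfold cnt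
    rw [av2_sum]
    refine sum_congr rfl fun i _ => ?_
    rw [av2_sum]
  rw [e]
  refine av2_mono fun x y => ?_
  by_cases h : ∃ i j, St τ T c i j x y
  · obtain ⟨i, j, hij⟩ := h
    have hT : 0 < T x y := lt_of_lt_of_le (hτ.pos i j) hij.2.1.2
    rw [ind_true hT, sum_eq_single_of_mem i (mem_range.2 hij.1.1),
      sum_eq_single_of_mem j (mem_range.2 hij.1.2), ind_true hij]
    · intro j' _ hj'
      exact ind_false fun h' => hj' ((st_sng hτ T c).2 _ _ _ _ _ _ h' hij).2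
    · intro i' _ hi'
      exact sum_eq_zero fun j' _ =>
        ind_false fun h' => hi' ((st_sng hτ T c).2 _ _ _ _ _ _ h' hij).1
  · refine le_trans (le_of_eq (sum_eq_zero fun i _ => sum_eq_zero fun j _ => ?_)) (ind_nonneg _)
    exact ind_false fun h' => h ⟨i, j, h'⟩

/-- the average of `mm` -/
theorem sum_mm (h0 : SC2) (S : ℕ → ℕ → Q n → Q m → Prop) :
    ∑ i ∈ range n, ∑ j ∈ range m, av2 (fun x y => mm S i j x y) = cnt S := by
  unfold cnt
  refine sum_congr rfl fun i _ => sum_congr rfl fun j _ => ?_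
  have h := (h0 n m i j).2.1 (fun x y => ind (S i j x y)) (fun _ _ => 1)
    ⟨fun _ _ _ _ => rfl, fun _ _ _ _ => rfl⟩
  simp only [mul_one] at h
  exact h

theorem neg_le {a s : ℝ} (ha : 0 ≤ a) (hs : 0 < s) :
    Real.negMulLog a ≤ a * Real.log (1 / s) + s := by
  rcases ha.eq_or_lt with h | h
  · rw [← h, Real.negMulLog_zero, zero_mul, zero_add]
    exact hs.le
  · have h1 := Real.log_le_sub_one_of_pos (show 0 < s / a by positivity)
    have h2 : Real.log (s / a) = Real.log s - Real.log a := Real.log_div hs.ne' h.ne'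
    have h3 : Real.log (1 / s) = -Real.log s := by rw [one_div, Real.log_inv]
    rw [h3]
    unfold Real.negMulLog
    rw [h2] at h1
    have h4 : a * (Real.log s - Real.log a) ≤ a * (s / a - 1) := mul_le_mul_of_nonneg_left h1 h.le
    have h5 : a * (s / a - 1) = s - a := by field_simp
    nlinarith

theorem ent_le (h0 : SC2) {τ : ℕ → ℕ → ℕ} (T : Q n → Q m → ℕ)
    {c : ℕ → ℕ → Q n → Q m → Prop} (hc : ∀ i j, Pr i j (c i j)) {s : ℝ} (hs : 0 < s) :
    ent' (St τ T c) ≤ Real.log (1 / s) * cnt (St τ T c) + s * cnt c := by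
  rw [← sum_mm h0]
  unfold ent' cnt
  rw [mul_sum, mul_sum, ← sum_add_distrib]
  refine sum_le_sum fun i _ => ?_
  rw [mul_sum, mul_sum, ← sum_add_distrib]
  refine sum_le_sum fun j _ => ?_
  rw [← av2_mul_left, ← av2_mul_left, ← av2_add]
  refine av2_mono fun x y => ?_
  by_cases h : c i j x y
  · rw [ind_true h, mul_one, mul_comm (Real.log (1 / s))]
    exact neg_le (mm_nonneg _ _ _ _ _) hs
  · have h1 : mm (St τ T c) i j x y = 0 := by
      unfold mm c2
      rw [← av2_const (n := n) (m := m) 0]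
      congr 1
      funext u v
      refine ind_false fun h2 => h ?_
      have h3 := h2.2.1.1
      rw [pr_mix (hc i j)] at h3
      exact h3
    rw [h1, Real.negMulLog_zero, ind_false h, mul_zero, mul_zero, add_zero]

theorem ent_nonneg (S : ℕ → ℕ → Q n → Q m → Prop) : 0 ≤ ent' S :=
  sum_nonneg fun _ _ => sum_nonneg fun _ _ => av2_nonneg fun _ _ =>
    Real.negMulLog_nonneg (mm_nonneg _ _ _ _ _) (mm_le_one _ _ _ _ _)

theorem nrg_nonneg (b : ℕ → ℕ → Q n → Q m → ℝ) : 0 ≤ nrg b :=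
  sum_nonneg fun _ _ => sum_nonneg fun _ _ => av2_nonneg fun _ _ => sq_nonneg _

/-- the coefficients -/
noncomputable def bS (τ : ℕ → ℕ → ℕ) (T : Q n → Q m → ℕ) (c : ℕ → ℕ → Q n → Q m → Prop)
    (i j : ℕ) (x : Q n) (y : Q m) : ℝ := ind (c i j x y) * dS τ T c i j x y

theorem bS_pr (h0 : SC2) (τ : ℕ → ℕ → ℕ) (T : Q n → Q m → ℕ)
    {c : ℕ → ℕ → Q n → Q m → Prop} (hc : ∀ i j, Pr i j (c i j)) (i j : ℕ) :
    Pr i j (bS τ T c i j) := by
  have hd := (h0 n m i j).1 fun (x : Q n) (y : Q m) =>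
    sg i x * sg j y * ind (∃ a e, St τ T c a e x y ∧ τ i j < τ a e)
  refine ⟨fun y l hl x => ?_, fun x l hl y => ?_⟩
  · have h1 : c i j (fl l x) y = c i j x y := (hc i j).1 y l hl x
    have h2 : dS τ T c i j (fl l x) y = dS τ T c i j x y := hd.1 y l hl x
    show ind (c i j (fl l x) y) * dS τ T c i j (fl l x) y = ind (c i j x y) * dS τ T c i j x y
    rw [h1, h2]
  · have h1 : c i j x (fl l y) = c i j x y := (hc i j).2 x l hl y
    have h2 : dS τ T c i j x (fl l y) = dS τ T c i j x y := hd.2 x l hl y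
    show ind (c i j x (fl l y)) * dS τ T c i j x (fl l y) = ind (c i j x y) * dS τ T c i j x y
    rw [h1, h2]

theorem pair_bS (h0 : SC2) (τ : ℕ → ℕ → ℕ) (T : Q n → Q m → ℕ)
    {c : ℕ → ℕ → Q n → Q m → Prop} (hc : ∀ i j, Pr i j (c i j)) :
    pair (bS τ T c) (fun i j x y => ∃ a e, St τ T c a e x y ∧ τ i j < τ a e) =
      nrg (bS τ T c) := by
  unfold pair nrg
  refine sum_congr rfl fun i _ => sum_congr rfl fun j _ => ?_
  have h := (h0 n m i j).2.1 (fun x y => sg i x * sg j y *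
    ind (∃ a e, St τ T c a e x y ∧ τ i j < τ a e)) (bS τ T c i j) (bS_pr h0 τ T hc i j)
  have e1 : (av2 fun (x : Q n) (y : Q m) => sg i x * sg j y * bS τ T c i j x y *
      ind (∃ a e, St τ T c a e x y ∧ τ i j < τ a e)) = av2 fun (x : Q n) (y : Q m) =>
      sg i x * sg j y * ind (∃ a e, St τ T c a e x y ∧ τ i j < τ a e) * bS τ T c i j x y := by
    congr 1
    funext x y
    ring
  rw [e1, ← h]
  congr 1
  funext x y
  show dS τ T c i j x y * (ind (c i j x y) * dS τ T c i j x y) =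
    (ind (c i j x y) * dS τ T c i j x y) ^ 2
  by_cases h1 : c i j x y
  · rw [ind_true h1]; ring
  · rw [ind_false h1]; ring

theorem energy (h0 : SC2) {τ : ℕ → ℕ → ℕ} (hτ : Clk τ) (T : Q n → Q m → ℕ) {κ : ℝ} (hκ : 0 < κ)
    (hc : ∀ i j, Pr i j fun (x : Q n) (y : Q m) => κ ≤ |dd τ T i j x y|) :
    κ ^ 2 * cnt (fun i j (x : Q n) (y : Q m) => κ ≤ |dd τ T i j x y|) ≤
      2 * nrg (bS τ T fun i j (x : Q n) (y : Q m) => κ ≤ |dd τ T i j x y|) +
      2 * cnt (St τ T fun i j (x : Q n) (y : Q m) => κ ≤ |dd τ T i j x y|) := by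
  rw [← sum_mm h0 (St τ T fun i j (x : Q n) (y : Q m) => κ ≤ |dd τ T i j x y|)]
  unfold nrg cnt
  rw [mul_sum, mul_sum, mul_sum, ← sum_add_distrib]
  refine sum_le_sum fun i hi => ?_
  rw [mul_sum, mul_sum, mul_sum, ← sum_add_distrib]
  refine sum_le_sum fun j hj => ?_
  rw [← av2_mul_left, ← av2_mul_left, ← av2_mul_left, ← av2_add]
  refine av2_mono fun x y => ?_
  rw [mem_range] at hi hj
  have hm0 := mm_nonneg (St τ T fun i j (x : Q n) (y : Q m) => κ ≤ |dd τ T i j x y|) i j x y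
  have hm1 := mm_le_one (St τ T fun i j (x : Q n) (y : Q m) => κ ≤ |dd τ T i j x y|) i j x y
  by_cases h : κ ≤ |dd τ T i j x y|
  · have h1 := dd_sub_le h0 hτ T hc hi hj h
    unfold bS
    rw [ind_true h, one_mul, mul_one]
    have h2 : κ ^ 2 ≤ dd τ T i j x y ^ 2 := by
      rw [← sq_abs (dd τ T i j x y)]
      exact pow_le_pow_left₀ hκ.le h 2
    have h3 := pow_le_pow_left₀ (abs_nonneg _) h1 2
    rw [sq_abs] at h3
    nlinarith [sq_nonneg (dd τ T i j x y - 2 * dS τ T (fun i j (x : Q n) (y : Q m) =>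
      κ ≤ |dd τ T i j x y|) i j x y)]
  · rw [ind_false h, mul_zero]
    positivity

theorem count2 (h0 : SC2) (h6 : STop2) : SCount2 := by
  obtain ⟨C, hC, h6⟩ := h6
  intro r hr
  have hr2 : 0 < r - 2 := by linarith
  have hl0 : 0 ≤ Real.log (4 * C + 4) := Real.log_nonneg (by linarith)
  refine ⟨2 * (2 * C + 2) * (1 + Real.log (4 * C + 4) + 2 / (r - 2)), by positivity, ?_⟩
  intro n m τ T κ hτ hκ hκ1
  have hc : ∀ i j, Pr i j fun (x : Q n) (y : Q m) => κ ≤ |dd τ T i j x y| := by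
    intro i j
    have h1 := (h0 n m i j).1 fun x y => sg i x * sg j y * ind (τ i j ≤ T x y)
    refine ⟨fun y l hl x => ?_, fun x l hl y => ?_⟩
    · show (κ ≤ |dd τ T i j (fl l x) y|) = (κ ≤ |dd τ T i j x y|)
      have : dd τ T i j (fl l x) y = dd τ T i j x y := h1.1 y l hl x
      rw [this]
    · show (κ ≤ |dd τ T i j x (fl l y)|) = (κ ≤ |dd τ T i j x y|)
      have : dd τ T i j x (fl l y) = dd τ T i j x y := h1.2 x l hl y
      rw [this]
  have a1 := energy h0 hτ T hκ hc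
  have a2 := h6 n m τ _ _ hτ (st_sng hτ T fun i j (x : Q n) (y : Q m) => κ ≤ |dd τ T i j x y|)
    (bS_pr h0 τ T hc)
  rw [pair_bS h0 τ T hc] at a2
  have a3 := cnt_st_le hτ T fun i j (x : Q n) (y : Q m) => κ ≤ |dd τ T i j x y|
  set E := nrg (bS τ T fun i j (x : Q n) (y : Q m) => κ ≤ |dd τ T i j x y|) with hE
  have hE0 : 0 ≤ E := nrg_nonneg _
  set s : ℝ := κ ^ 2 / (2 * (2 * C + 2)) with hs
  have hκ2 : 0 < κ ^ 2 := by positivity
  have hs0 : 0 < s := by positivity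
  have hs1 : s ≤ 1 := by
    rw [hs, div_le_one (by positivity)]
    nlinarith
  have a4 := ent_le h0 (τ := τ) T hc hs0
  have a5 := ent_nonneg (St τ T fun i j (x : Q n) (y : Q m) => κ ≤ |dd τ T i j x y|)
  have a6 := cnt_nonneg (St τ T fun i j (x : Q n) (y : Q m) => κ ≤ |dd τ T i j x y|)
  have a7 := cnt_nonneg fun i j (x : Q n) (y : Q m) => κ ≤ |dd τ T i j x y|
  set lam := cnt fun i j (x : Q n) (y : Q m) => κ ≤ |dd τ T i j x y| with hlam
  set cS := cnt (St τ T fun i j (x : Q n) (y : Q m) => κ ≤ |dd τ T i j x y|) with hcS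
  set eS := ent' (St τ T fun i j (x : Q n) (y : Q m) => κ ≤ |dd τ T i j x y|) with heS
  have b1 : E ≤ C * (cS + eS) := by
    rcases hE0.eq_or_lt with h | h
    · rw [← h]
      positivity
    · refine le_of_mul_le_mul_right ?_ h
      rw [← sq]
      exact a2
  have b2 : 0 ≤ Real.log (1 / s) := Real.log_nonneg (by
    rw [le_div_iff₀ hs0, one_mul]
    exact hs1)
  have b3 : κ ^ 2 * lam ≤ (2 * C + 2) * (cS + eS) := by nlinarith
  have b4 : κ ^ 2 * lam ≤ (2 * C + 2) * (1 + Real.log (1 / s)) * sup0 T + κ ^ 2 / 2 * lam := by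
    have e1 : κ ^ 2 / 2 * lam = (2 * C + 2) * (s * lam) := by
      rw [hs]
      field_simp
    rw [e1]
    have c1 : cS + eS ≤ (1 + Real.log (1 / s)) * sup0 T + s * lam := by
      have : (1 + Real.log (1 / s)) * cS ≤ (1 + Real.log (1 / s)) * sup0 T :=
        mul_le_mul_of_nonneg_left a3 (by linarith)
      linarith
    have c2 := mul_le_mul_of_nonneg_left c1 (show (0 : ℝ) ≤ 2 * C + 2 by linarith)
    linarith
  have b5 : lam ≤ 2 * (2 * C + 2) * (1 + Real.log (1 / s)) / κ ^ 2 * sup0 T := by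
    rw [div_mul_eq_mul_div, le_div_iff₀ hκ2]
    linarith
  refine b5.trans (mul_le_mul_of_nonneg_right ?_ (a6.trans a3))
  have d1 : Real.log (1 / s) = Real.log (4 * C + 4) + 2 * Real.log κ⁻¹ := by
    have : 1 / s = (4 * C + 4) * (κ⁻¹ ^ 2) := by
      rw [hs]
      field_simp
      ring
    rw [this, Real.log_mul (by positivity) (by positivity), Real.log_pow]
    push_cast
    ring
  have d2 : Real.log κ⁻¹ ≤ κ⁻¹ ^ (r - 2) / (r - 2) := Real.log_le_rpow_div (by positivity) hr2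
  have d3 : 1 ≤ κ⁻¹ ^ (r - 2) := Real.one_le_rpow (one_le_inv_iff₀.2 ⟨hκ, hκ1⟩) hr2.le
  have d4 : κ ^ r = κ ^ 2 * κ ^ (r - 2) := by
    rw [← Real.rpow_natCast κ 2, ← Real.rpow_add hκ]
    congr 1
    push_cast
    ring
  have d5 : κ⁻¹ ^ (r - 2) = (κ ^ (r - 2))⁻¹ := Real.inv_rpow hκ.le _
  have hκr : 0 < κ ^ (r - 2) := Real.rpow_pos_of_pos hκ _
  have d6 : 1 + Real.log (1 / s) ≤
      (1 + Real.log (4 * C + 4) + 2 / (r - 2)) * κ⁻¹ ^ (r - 2) := by
    rw [d1]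
    have e1 : 1 + Real.log (4 * C + 4) ≤ (1 + Real.log (4 * C + 4)) * κ⁻¹ ^ (r - 2) :=
      le_mul_of_one_le_right (by linarith) d3
    have e2 : 2 / (r - 2) * κ⁻¹ ^ (r - 2) = 2 * (κ⁻¹ ^ (r - 2) / (r - 2)) := by ring
    nlinarith
  rw [d4, ← div_div, le_div_iff₀ hκr, div_mul_eq_mul_div]
  refine div_le_div_of_nonneg_right ?_ hκ2.le
  rw [mul_assoc (2 * (2 * C + 2))]
  refine mul_le_mul_of_nonneg_left ?_ (by positivity)
  rw [d5] at d6
  calc (1 + Real.log (1 / s)) * κ ^ (r - 2) ≤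
      (1 + Real.log (4 * C + 4) + 2 / (r - 2)) * (κ ^ (r - 2))⁻¹ * κ ^ (r - 2) :=
        mul_le_mul_of_nonneg_right d6 hκr.le
    _ = 1 + Real.log (4 * C + 4) + 2 / (r - 2) := by
        rw [mul_assoc, inv_mul_cancel₀ hκr.ne', mul_one]

end Pool.Agent.H54.RV2
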